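import Pool.Agent.CUBD.MainThree

/-!
`MP_c16a21_nt`, Q2: excluded ratios for cuboids of type B. `TypeB`, `OccursB`: as in the problem.
`Crit3 a b`: the Legendre symbol criterion; `CritPrime3 a b`: its form when `a² + b²` is prime.
-/

set_option autoImplicit false

namespace Pool.Agent.Results.MP_c16a21_nt.ExcludedRatios

open Pool.Agent.CUBD

theorem result :
    (∀ a b : ℕ, ¬ 4 ∣ b → ¬ 16 ∣ a → Squarefree (a ^ 2 + b ^ 2) → Crit3 a b → Excluded a b) ∧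
      (∀ a b : ℕ, ¬ 4 ∣ b → ¬ 16 ∣ a → (a ^ 2 + b ^ 2).Prime → CritPrime3 a b →
        Excluded a b) ∧
      (∀ a b : ℕ, (a = 1 ∨ a = 2 ∨ a = 4) → (∀ p : ℕ, p.Prime → p ∣ b → p % 4 ≠ 1) →
        CritPrime3 a b) ∧
      (∀ a b r l k : ℕ, r.Prime → r ≠ 2 → (a = r ∨ a = 2 * r) → l.Prime → l % 4 = 1 →
        b = l * k → (∀ p : ℕ, p.Prime → p ∣ k → p % 4 ≠ 1) → ¬ IsSquare (r : ZMod l) →
        CritPrime3 a b) ∧
      ∀ p b l : ℕ, p.Prime → (p % 8 = 3 ∨ p % 8 = 5) → b % 2 = 1 →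
        (∀ q : ℕ, q.Prime → q ∣ b → q % 4 ≠ 1) → l.Prime → 2 * l = p ^ 2 + b ^ 2 →
        Excluded p b :=
  main3

end Pool.Agent.Results.MP_c16a21_nt.ExcludedRatios
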