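import Pool.Agent.CUBF.Fin

/-!
`MP_c16a21_nt`, Q2(a): excluded Pythagorean ratios for cuboids of type B. `TypeB`, `OccursB`: as in
the problem. `CritB a b c`: the criterion with Legendre symbols.
-/

set_option autoImplicit false

namespace Pool.Agent.Results.MP_c16a21_nt.PythagoreanTypeB

open Pool.Agent.CUBD Pool.Agent.CUBF

theorem result :
    (∀ a b c : ℕ, a % 2 = 1 → 0 < b → 4 ∣ b → ¬ 16 ∣ b → Nat.Coprime a b →
      a ^ 2 + b ^ 2 = c ^ 2 → CritB a b c → CritB b a c →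
      ¬ OccursB ((a : ℚ) / b) ∧ ¬ OccursB ((b : ℚ) / a)) ∧
      (¬ OccursB (5 / 12) ∧ ¬ OccursB (12 / 5)) ∧
      (¬ OccursB (143 / 24) ∧ ¬ OccursB (24 / 143)) ∧
      (¬ OccursB (221 / 60) ∧ ¬ OccursB (60 / 221)) :=
  mainP

end Pool.Agent.Results.MP_c16a21_nt.PythagoreanTypeB
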