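import Pool.Agent.CUBE.Ex

/-!
`MP_c16a21_nt`, Q1: excluded ratios for cuboids of type A. `TypeA`, `OccursA`, `TypeB`, `OccursB`:
as in the problem. `CritA a b`: the criterion with Legendre symbols.
-/

set_option autoImplicit false

namespace Pool.Agent.Results.MP_c16a21_nt.TypeARatios

open Pool.Agent.CUBE

theorem result :
    (∀ a b : ℕ, a % 2 = 1 → 4 ∣ b → ¬ 16 ∣ b → Squarefree ((b : ℤ) ^ 2 - (a : ℤ) ^ 2) →
      CritA a b → ExcludedA a b) ∧
      ExcludedA 5 12 ∧ ExcludedA 15 8 ∧ ExcludedA 35 12 ∧ ExcludedA 33 56 ∧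
      ExcludedA 21 220 ∧ ExcludedA 51 140 ∧ ExcludedA 105 88 ∧ ExcludedA 143 24 :=
  mainA

end Pool.Agent.Results.MP_c16a21_nt.TypeARatios
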